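import Pool.Agent.Helper79.GS.St5

set_option autoImplicit false

namespace Pool.Agent.Helper38.GS

open Pool.Agent.Helper79.GS Pool.Agent.Helper19.SK Pool.Agent.Helper73.DC Finset
open scoped Classical

private lemma bn_cB {c : ℕ} (hc : c ≤ 1) : bn (cB c) = c := by
  interval_cases c <;> simp [bn, cB]

private lemma not_cB {c : ℕ} (hc : c ≤ 1) : (!(cB c)) = cB (1 - c) := by
  interval_cases c <;> simp [cB]

private lemma area_le (N n c u : ℕ) : areaN N n c u ≤ n * n := by
  unfold areaN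
  refine le_trans (Finset.sum_le_card_nsmul _ _ 1 (fun v _ => ?_)) ?_
  · split_ifs <;> omega
  · simp

theorem hARN (hBND : StBND) : StARN := by
  intro w c u x hc
  have hNb : pw (NN 16 w) 3 (nW w * nW w) = 3 ^ (nW w * nW w) := (hBND w).2.2.2.2.1
  have hc1 : 1 - c ≤ 1 := by omega
  have h1 : (!(cB c)) = cB (1 - c) := not_cB hc
  have hmv : ∀ (d a b : ℕ), d ≤ 1 → ((AW w).mv (cB d) a b ↔ mvN (NN 16 w) (nW w) d a b) := by
    intro d a b hd
    show mvN (NN 16 w) (nW w) (bn (cB d)) a b ↔ _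
    rw [bn_cB hd]
  have hs : ∀ a, (AW w).s a = (areaN (NN 16 w) (nW w) 1 a : ℤ) - (areaN (NN 16 w) (nW w) 0 a : ℤ) :=
    fun a => rfl
  have ha0 := area_le (NN 16 w) (nW w) 0 u
  have ha1 := area_le (NN 16 w) (nW w) 1 u
  refine ⟨h1, hmv c u x hc, ?_, ?_, ?_, ?_, ?_, ?_, ?_⟩
  · rw [h1]
    exact hmv _ u x hc1
  · unfold rv rvN
    rw [h1, hmv c u x hc, hmv _ x u hc1]
  · unfold ahead ahN
    rw [hs u]
    interval_cases c
    · simp [cB]
    · simp [cB]
  · unfold mg idN
    rw [hs u]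
    interval_cases c
    · simp [cB]
    · simp [cB]
  · unfold idN
    split_ifs
    · omega
    · omega
  · intro h
    have h2 := h.1
    have h3 := h.2.1
    rw [hNb] at h2 h3
    exact ⟨h2, h3⟩
  · rw [hs u, hs x]
    omega

end Pool.Agent.Helper38.GS
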